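import Pool.Agent.H45.Hit

set_option autoImplicit false

open MeasureTheory ProbabilityTheory Pool.Agent.H45.Chain
open scoped ENNReal

namespace Pool.Agent.Results.MP_990fd9_pr.Speedup

/-- `h_max ≤ k * h^k_max` for every Markov chain on a finite state space, in particular for the
simple random walk on any finite strongly connected directed or undirected graph. -/
theorem result (V : Type) [Fintype V] [MeasurableSpace V] [MeasurableSingletonClass V]
    (K : Kernel V V) [IsMarkovKernel K] (k : ℕ) (hk : 1 ≤ k) :
    (⨆ u : V, ⨆ v : V, hitTime K u v) ≤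
      (k : ℝ≥0∞) * ⨆ us : Fin k → V, ⨆ v : V, jointHitTime K us v := by
  obtain ⟨k, rfl⟩ : ∃ j, k = j + 1 := ⟨k - 1, by omega⟩
  refine iSup₂_le fun u v => (hitTime_le K k u v).trans ?_
  gcongr
  exact iSup_le fun w => le_iSup₂_of_le (fun _ => w) v le_rfl

end Pool.Agent.Results.MP_990fd9_pr.Speedup
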